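import Pool.Agent.Helper19K9.Dd.Stm

/-! # Project Dd, leaf FAC: the factor over the subfield (helper90) -/

set_option autoImplicit false

namespace Pool.Agent.Helper90K9.Dd

open Polynomial NumberField IntermediateField
open Pool.Agent.Helper19K9.Dd

/-- heights of the coefficients of a factor over a number field -/
theorem height_le (hSYM : S_SYM) (hMH : S_MH) (hEXT : S_EXT) (F L : Type) [Field F]
    [NumberField F] [Field L] [NumberField L] [Algebra F L] (φ : F[X]) (hφ : φ.Monic)
    (hs : (φ.map (algebraMap F L)).Splits) (f : ℤ[X]) (hf : Irreducible f)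
    (hdeg : 0 < f.natDegree) (hdvd : φ ∣ f.map (Int.castRingHom F)) (i : ℕ) :
    Real.log (Height.mulHeight₁ (φ.coeff i)) ≤
      Module.finrank ℚ F * (φ.natDegree * (Real.log (f.map (Int.castRingHom ℂ)).mahlerMeasure /
        f.natDegree + Real.log 2)) := by
  classical
  obtain ⟨ψ, hψ⟩ : ∃ ψ, ψ = φ.map (algebraMap F L) := ⟨_, rfl⟩
  have hψm : ψ.Monic := by rw [hψ]; exact hφ.map _
  have hψd : ψ.natDegree = φ.natDegree := by rw [hψ]; exact hφ.natDegree_map _
  rw [← hψ] at hs
  have h1 : ψ = (ψ.roots.map fun y => X - C y).prod := hs.eq_prod_roots_of_monic hψm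
  have hcard : Multiset.card ψ.roots = φ.natDegree := by
    rw [← hψd]; exact hs.natDegree_eq_card_roots.symm
  have h2 := hSYM L ψ.roots i
  rw [← h1, hcard] at h2
  have h3 : ψ.coeff i = algebraMap F L (φ.coeff i) := by rw [hψ, coeff_map]
  rw [h3, hEXT F L] at h2
  have hroot : ∀ y ∈ ψ.roots, Real.log (Height.mulHeight₁ y) ≤ Module.finrank ℚ L *
      (Real.log (f.map (Int.castRingHom ℂ)).mahlerMeasure / f.natDegree) := by
    intro y hy
    refine hMH L y f hf hdeg ?_
    have h4 : ψ.eval y = 0 := (mem_roots'.1 hy).2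
    obtain ⟨q, hq⟩ := hdvd
    have h5 : (f.map (Int.castRingHom L)) = ψ * q.map (algebraMap F L) := by
      rw [hψ, ← Polynomial.map_mul, ← hq, Polynomial.map_map]
      congr 1
      exact RingHom.ext_int _ _
    have h6 : aeval y f = (f.map (Int.castRingHom L)).eval y := by
      rw [eval_map, aeval_def]
      congr 1
    rw [h6, h5, eval_mul, h4, zero_mul]
  have h4 : (ψ.roots.map fun y => Real.log (Height.mulHeight₁ y)).sum ≤
      φ.natDegree * (Module.finrank ℚ L *
        (Real.log (f.map (Int.castRingHom ℂ)).mahlerMeasure / f.natDegree)) := by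
    have h5 := Multiset.sum_le_card_nsmul (ψ.roots.map fun y => Real.log (Height.mulHeight₁ y))
      (Module.finrank ℚ L *
        (Real.log (f.map (Int.castRingHom ℂ)).mahlerMeasure / f.natDegree)) (by
        intro z hz
        obtain ⟨y, hy, rfl⟩ := Multiset.mem_map.1 hz
        exact hroot y hy)
    rw [Multiset.card_map, hcard, nsmul_eq_mul] at h5
    exact h5
  have h6 : (Module.finrank ℚ L : ℝ) = Module.finrank ℚ F * Module.finrank F L := by
    rw [← Nat.cast_mul, Module.finrank_mul_finrank ℚ F L]
  have : Module.Finite F L := Module.Finite.right ℚ F L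
  have h7 : (0 : ℝ) < Module.finrank F L := by
    exact_mod_cast Module.finrank_pos (R := F) (M := L)
  rw [h6] at h2 h4
  have h8 : (Module.finrank F L : ℝ) * Real.log (Height.mulHeight₁ (φ.coeff i)) ≤
      Module.finrank F L * (Module.finrank ℚ F * (φ.natDegree *
        (Real.log (f.map (Int.castRingHom ℂ)).mahlerMeasure / f.natDegree + Real.log 2))) := by
    calc _ ≤ _ := h2
      _ ≤ φ.natDegree * (Module.finrank ℚ F * Module.finrank F L *
          (Real.log (f.map (Int.castRingHom ℂ)).mahlerMeasure / f.natDegree)) +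
          Module.finrank ℚ F * Module.finrank F L * (φ.natDegree * Real.log 2) :=
          add_le_add h4 le_rfl
      _ = _ := by ring
  exact le_of_mul_le_mul_left h8 h7

theorem fac : S_SYM → S_MH → S_EXT → S_FAC := by
  classical
  intro hSYM hMH hEXT r m e hm he hme g hg hgi hgd F _ _ θ hFm hθ k _ _ b x hk hb hx f hf hfd hfx
  -- the embedding
  have hgq : Irreducible (g.map (algebraMap ℤ ℚ)) :=
    (hg.irreducible_iff_irreducible_map_fraction_map (K := ℚ)).1 hgi
  have hgm : (g.map (algebraMap ℤ ℚ)).Monic := hg.map _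
  have hθ' : aeval θ (g.map (algebraMap ℤ ℚ)) = 0 := by rw [aeval_map_algebraMap]; exact hθ
  have hb' : aeval b (g.map (algebraMap ℤ ℚ)) = 0 := by rw [aeval_map_algebraMap]; exact hb
  have hmin : g.map (algebraMap ℤ ℚ) = minpoly ℚ θ :=
    minpoly.eq_of_irreducible_of_monic hgq hθ' hgm
  have hθi : IsIntegral ℚ θ := ⟨_, hgm, hθ'⟩
  have hθtop : ℚ⟮θ⟯ = ⊤ := by
    apply IntermediateField.eq_of_le_of_finrank_eq le_top
    rw [IntermediateField.adjoin.finrank hθi, ← hmin, hg.natDegree_map, hgd,
      IntermediateField.finrank_top', hFm]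
  obtain ⟨σ⟩ : Nonempty (F →ₐ[ℚ] k) := by
    have h1 : aeval b (minpoly ℚ (IntermediateField.adjoin.powerBasis hθi).gen) = 0 := by
      have h2 : minpoly ℚ (IntermediateField.adjoin.powerBasis hθi).gen = minpoly ℚ θ := by
        rw [IntermediateField.adjoin.powerBasis_gen]
        exact IntermediateField.minpoly_gen ℚ θ
      rw [h2, ← hmin]
      exact hb'
    exact ⟨((IntermediateField.adjoin.powerBasis hθi).lift b h1).comp
      ((IntermediateField.topEquiv (F := ℚ) (E := F)).symm.trans
        (IntermediateField.equivOfEq hθtop.symm)).toAlgHom⟩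
  let : Algebra F k := σ.toRingHom.toAlgebra
  have : IsScalarTower ℚ F k := IsScalarTower.of_algebraMap_eq fun q => (σ.commutes q).symm
  have : Module.Finite F k := Module.Finite.right ℚ F k
  have hfin : Module.finrank F k = e := by
    have h1 := Module.finrank_mul_finrank ℚ F k
    rw [hFm, hk, ← hme] at h1
    exact Nat.eq_of_mul_eq_mul_left hm h1
  have hxi : IsIntegral F x := Algebra.IsIntegral.isIntegral x
  have hxtop : F⟮x⟯ = ⊤ := by
    rw [eq_top_iff]
    intro z _
    have h1 : z ∈ (ℚ⟮x⟯ : IntermediateField ℚ k) := by rw [hx]; exact IntermediateField.mem_top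
    have h2 : (ℚ⟮x⟯ : IntermediateField ℚ k) ≤ (F⟮x⟯).restrictScalars ℚ := by
      rw [IntermediateField.adjoin_simple_le_iff]
      exact IntermediateField.mem_adjoin_simple_self F x
    exact h2 h1
  have hdvd : minpoly F x ∣ f.map (Int.castRingHom F) := by
    apply minpoly.dvd
    have h1 : aeval x (f.map (algebraMap ℤ F)) = 0 := by
      rw [aeval_map_algebraMap]
      exact hfx
    exact h1
  have hdeg : (minpoly F x).natDegree = e := by
    rw [← IntermediateField.adjoin.finrank hxi, hxtop, IntermediateField.finrank_top', hfin]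
  refine ⟨minpoly F x, minpoly.monic hxi, hdeg, hdvd, fun i => ?_⟩
  have : NumberField (minpoly F x).SplittingField :=
    NumberField.of_module_finite F (minpoly F x).SplittingField
  have hr : 0 < f.natDegree := by
    rw [hfd, ← hme]
    exact Nat.mul_pos hm he
  have h1 := height_le hSYM hMH hEXT F (minpoly F x).SplittingField (minpoly F x)
    (minpoly.monic hxi) (SplittingField.splits _) f hf hr hdvd i
  refine h1.trans (le_of_eq ?_)
  rw [hdeg, hFm, hfd, ← hme]
  have hm0 : (m : ℝ) ≠ 0 := by exact_mod_cast (by omega : m ≠ 0)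
  have he0 : (e : ℝ) ≠ 0 := by exact_mod_cast (by omega : e ≠ 0)
  push_cast
  field_simp

end Pool.Agent.Helper90K9.Dd
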